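import Mathlib
import Pool.Agent.H65.N6P.Targets

/-!
# Row PBDD: roots and inverse values are bounded by powers of `φ p`
-/

set_option autoImplicit false

open Polynomial NumberField IsDedekindDomain Matrix Pool.Agent.H32.QC Pool.Agent.H34.N6
  Pool.Agent.H65.N6P

namespace Pool.Agent.H16.N6P

theorem bdd_coeff {F : Type} [NormedField F] (p : F) (hp0 : 0 < ‖p‖) (hp1 : ‖p‖ < 1)
    (g : F[X]) : ∃ n : ℕ, ∀ m, n ≤ m → ∀ i, ‖g.coeff i‖ * ‖p‖ ^ m ≤ 1 := by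
  obtain ⟨B, hB⟩ : ∃ B, B = 1 + ∑ i ∈ g.support, ‖g.coeff i‖ := ⟨_, rfl⟩
  have hS : 0 ≤ ∑ i ∈ g.support, ‖g.coeff i‖ := Finset.sum_nonneg fun i _ => norm_nonneg _
  have hB1 : 1 ≤ B := by rw [hB]; linarith
  have hB0 : 0 < B := by linarith
  obtain ⟨n, hn⟩ := exists_pow_lt_of_lt_one (inv_pos.2 hB0) hp1
  refine ⟨n, fun m hm i => ?_⟩
  have h1 : ‖g.coeff i‖ ≤ B := by
    by_cases hi : i ∈ g.support
    · have := Finset.single_le_sum (f := fun i => ‖g.coeff i‖) (fun j _ => norm_nonneg _) hi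
      rw [hB]; linarith
    · rw [Polynomial.notMem_support_iff.1 hi, norm_zero]; exact hB0.le
  have h2 : ‖p‖ ^ m ≤ B⁻¹ := (pow_le_pow_of_le_one hp0.le hp1.le hm).trans hn.le
  calc ‖g.coeff i‖ * ‖p‖ ^ m ≤ B * B⁻¹ :=
        mul_le_mul h1 h2 (pow_nonneg hp0.le _) hB0.le
    _ = 1 := mul_inv_cancel₀ hB0.ne'

theorem pf_BDD : T_BDD := by
  intro F _ _ p G₀ Q hp0 hp1 hmon hcop
  obtain ⟨a, b, hab⟩ := hcop
  obtain ⟨n1, hn1⟩ := bdd_coeff p hp0 hp1 G₀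
  obtain ⟨n2, hn2⟩ := bdd_coeff p hp0 hp1 Q
  obtain ⟨n3, hn3⟩ := bdd_coeff p hp0 hp1 b
  obtain ⟨s1, hs1⟩ : ∃ s1, s1 = max n1 (max n2 n3) := ⟨_, rfl⟩
  have h1 : ∀ i, ‖G₀.coeff i‖ * ‖p‖ ^ s1 ≤ 1 := hn1 s1 (by rw [hs1]; exact le_max_left _ _)
  have h2 : ∀ i, ‖Q.coeff i‖ * ‖p‖ ^ s1 ≤ 1 := hn2 s1 (by
    rw [hs1]; exact (le_max_left _ _).trans (le_max_right _ _))
  have h3 : ∀ i, ‖b.coeff i‖ * ‖p‖ ^ s1 ≤ 1 := hn3 s1 (by
    rw [hs1]; exact (le_max_right _ _).trans (le_max_right _ _))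
  refine ⟨s1 * (1 + b.natDegree), ?_⟩
  intro F2 _ _ φ hext θ hθ
  have hq1 : ‖φ p‖ < 1 := hext.small
  have hp : p ≠ 0 := norm_pos_iff.1 hp0
  have hq0 : 0 < ‖φ p‖ := norm_pos_iff.2 ((map_ne_zero φ).2 hp)
  have fact : ∀ x : F, ‖x‖ * ‖p‖ ^ s1 ≤ 1 → ‖φ x‖ * ‖φ p‖ ^ s1 ≤ 1 := by
    intro x hx
    have h4 := hext.int (x * p ^ s1) (by rw [norm_mul, norm_pow]; exact hx)
    rwa [map_mul, map_pow, norm_mul, norm_pow] at h4
  obtain ⟨r, hr⟩ : ∃ r, r = ‖φ p‖ ^ s1 := ⟨_, rfl⟩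
  rw [← hr] at fact
  have hr0 : 0 < r := by rw [hr]; exact pow_pos hq0 _
  have hr1 : r ≤ 1 := by rw [hr]; exact pow_le_one₀ hq0.le hq1.le
  have hfi : ∀ y : F2, ‖y‖ * r ≤ 1 → ‖y‖ ≤ r⁻¹ := by
    intro y hy
    have h4 : ‖y‖ = (‖y‖ * r) * r⁻¹ := by field_simp
    rw [h4]
    calc (‖y‖ * r) * r⁻¹ ≤ 1 * r⁻¹ := mul_le_mul_of_nonneg_right hy (inv_pos.2 hr0).le
      _ = r⁻¹ := one_mul _
  have hrs : ‖φ p‖ ^ (s1 * (1 + b.natDegree)) = r ^ (1 + b.natDegree) := by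
    rw [hr, ← pow_mul]
  have hrr : r ^ (1 + b.natDegree) ≤ r := by
    have := pow_le_pow_of_le_one hr0.le hr1 (show 1 ≤ 1 + b.natDegree by omega)
    simpa using this
  -- (1)
  have hθ1 : ‖θ‖ * r ≤ 1 := by
    by_contra hcon
    push Not at hcon
    have hθr : r⁻¹ < ‖θ‖ := by
      rw [inv_lt_iff_one_lt_mul₀ hr0]; exact hcon
    have hri : 1 ≤ r⁻¹ := (one_le_inv₀ hr0).2 hr1
    have hθ1 : 1 < ‖θ‖ := lt_of_le_of_lt hri hθr
    obtain ⟨N, hN⟩ : ∃ N, N = G₀.natDegree := ⟨_, rfl⟩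
    rw [Polynomial.eval₂_eq_sum_range, Finset.sum_range_succ, hmon.coeff_natDegree, map_one,
      one_mul, ← hN] at hθ
    have hN0 : N ≠ 0 := by
      intro h0
      rw [h0] at hθ
      simp at hθ
    have h4 : θ ^ N = -∑ i ∈ Finset.range N, φ (G₀.coeff i) * θ ^ i := by
      linear_combination hθ
    have h5 : ‖∑ i ∈ Finset.range N, φ (G₀.coeff i) * θ ^ i‖ ≤ r⁻¹ * ‖θ‖ ^ (N - 1) := by
      apply IsUltrametricDist.norm_sum_le_of_forall_le_of_nonneg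
      · positivity
      · intro i hi
        have hi' : i ≤ N - 1 := by
          have := Finset.mem_range.1 hi
          omega
        rw [norm_mul, norm_pow]
        apply mul_le_mul
        · exact hfi _ (fact _ (h1 i))
        · exact pow_le_pow_right₀ hθ1.le hi'
        · positivity
        · positivity
    have h6 : ‖θ‖ ^ N ≤ r⁻¹ * ‖θ‖ ^ (N - 1) := by
      rw [← norm_pow, h4, norm_neg]; exact h5
    have h7 : ‖θ‖ ^ N = ‖θ‖ * ‖θ‖ ^ (N - 1) := by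
      rw [← pow_succ']; congr 1; omega
    rw [h7] at h6
    have h8 : 0 < ‖θ‖ ^ (N - 1) := by positivity
    have h9 := le_of_mul_le_mul_right h6 h8
    linarith
  rw [hrs]
  refine ⟨?_, ?_, ?_⟩
  · exact (mul_le_mul_of_nonneg_left hrr (norm_nonneg _)).trans hθ1
  · intro i
    exact (mul_le_mul_of_nonneg_left hrr (norm_nonneg _)).trans (fact _ (h2 i))
  · have h4 : eval₂ φ θ b * eval₂ φ θ Q = 1 := by
      have h5 := congrArg (eval₂ φ θ) hab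
      rw [Polynomial.eval₂_add, Polynomial.eval₂_mul, Polynomial.eval₂_mul, hθ, mul_zero,
        zero_add, Polynomial.eval₂_one] at h5
      exact h5
    have hri : 1 ≤ r⁻¹ := (one_le_inv₀ hr0).2 hr1
    have h5 : ‖eval₂ φ θ b‖ ≤ r⁻¹ ^ (1 + b.natDegree) := by
      rw [Polynomial.eval₂_eq_sum_range]
      apply IsUltrametricDist.norm_sum_le_of_forall_le_of_nonneg
      · positivity
      · intro i hi
        have hi' : i ≤ b.natDegree := by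
          have := Finset.mem_range.1 hi
          omega
        rw [norm_mul, norm_pow, pow_add, pow_one]
        apply mul_le_mul
        · exact hfi _ (fact _ (h3 i))
        · calc ‖θ‖ ^ i ≤ r⁻¹ ^ i := pow_le_pow_left₀ (norm_nonneg _) (hfi _ hθ1) i
            _ ≤ r⁻¹ ^ b.natDegree := pow_le_pow_right₀ hri hi'
        · positivity
        · positivity
    have h6 : 1 = ‖eval₂ φ θ b‖ * ‖eval₂ φ θ Q‖ := by rw [← norm_mul, h4, norm_one]
    have h7 : (1 : ℝ) ≤ r⁻¹ ^ (1 + b.natDegree) * ‖eval₂ φ θ Q‖ := by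
      rw [h6]
      exact mul_le_mul_of_nonneg_right h5 (norm_nonneg _)
    have h8 : 0 < r ^ (1 + b.natDegree) := by positivity
    have h9 : r ^ (1 + b.natDegree) * 1 ≤
        r ^ (1 + b.natDegree) * (r⁻¹ ^ (1 + b.natDegree) * ‖eval₂ φ θ Q‖) :=
      mul_le_mul_of_nonneg_left h7 h8.le
    rw [mul_one, ← mul_assoc, ← mul_pow, mul_inv_cancel₀ hr0.ne', one_pow, one_mul] at h9
    exact h9

end Pool.Agent.H16.N6P
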